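import Pool.Agent.H95.D2.Nod
import Pool.Agent.H92.D2.Tub

/-!
# Weights

`lw`: the Lagrange weights of `D + 2` times, `1` at the last one.

`tup_sel`: the best `N + 1` samples of every line (Fubini over the law of the tuples).

`wts_raw`: if the weighted sum of the values at `D + 2` times of the line is small with large
probability, then the values are near a polynomial of the line. `wts`: with bounded coefficients.
-/

set_option autoImplicit false

namespace Pool.V1E

open Finset Real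
open Pool.Agent.H49.Ent Pool.Agent.H32.Dense Pool.STK Pool.KAF Pool.KVA Pool.OWN68 Pool.SLO
open Pool.BFL (Pb)
open Pool.D2N

/-! ### The weights -/

section lw

open Polynomial

/-- The polynomial through the values `y` at the nodes `x`. -/
noncomputable def Lg {D : ℕ} (x y : Fin (D + 1) → ℝ) : ℝ[X] :=
  ∑ i, C (y i) * Lagrange.basis univ x i

/-- The weights of `D + 2` nodes. -/
noncomputable def lw (D : ℕ) (u : Fin (D + 2) → ℝ) : Fin (D + 2) → ℝ :=
  Fin.snoc (α := fun _ => ℝ)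
    (fun i => -(Lagrange.basis univ (fun j => u (Fin.castSucc j)) i).eval (u (Fin.last (D + 1)))) 1

theorem lw_last (D : ℕ) (u : Fin (D + 2) → ℝ) : lw D u (Fin.last (D + 1)) = 1 := by
  unfold lw
  exact Fin.snoc_last (α := fun _ => ℝ) _ _

theorem lw_cast (D : ℕ) (u : Fin (D + 2) → ℝ) (i : Fin (D + 1)) : lw D u i.castSucc =
    -(Lagrange.basis univ (fun j => u (Fin.castSucc j)) i).eval (u (Fin.last (D + 1))) := by
  unfold lw
  exact Fin.snoc_castSucc (α := fun _ => ℝ) _ _ _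

/-- The degree. -/
theorem Lg_deg {D : ℕ} (x y : Fin (D + 1) → ℝ) : (Lg x y).natDegree ≤ D := by
  unfold Lg
  refine Polynomial.natDegree_sum_le_of_forall_le _ _ fun i _ => ?_
  refine (Polynomial.natDegree_C_mul_le _ _).trans ?_
  unfold Lagrange.basis
  refine (Polynomial.natDegree_prod_le _ _).trans ?_
  have h1 : ∀ j ∈ univ.erase i, (Lagrange.basisDivisor (x i) (x j)).natDegree ≤ 1 := by
    intro j _
    unfold Lagrange.basisDivisor
    exact (Polynomial.natDegree_C_mul_le _ _).trans (Polynomial.natDegree_X_sub_C _).le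
  refine (Finset.sum_le_sum h1).trans (le_of_eq ?_)
  rw [Finset.sum_const, Finset.card_erase_of_mem (mem_univ _), Finset.card_univ, Fintype.card_fin]
  simp

/-- **The weighted sum is the distance to the polynomial.** -/
theorem lw_sum {D : ℕ} (u y : Fin (D + 2) → ℝ) : ∑ i, lw D u i * y i =
    y (Fin.last (D + 1)) -
      (Lg (fun j => u (Fin.castSucc j)) (fun j => y (Fin.castSucc j))).eval
        (u (Fin.last (D + 1))) := by
  rw [Fin.sum_univ_castSucc, lw_last, one_mul]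
  unfold Lg
  rw [Polynomial.eval_finsetSum]
  have h1 : ∀ i : Fin (D + 1), lw D u i.castSucc * y i.castSucc =
      -((C (y (Fin.castSucc i)) * Lagrange.basis univ (fun j => u (Fin.castSucc j)) i).eval
        (u (Fin.last (D + 1)))) := by
    intro i
    rw [lw_cast, eval_mul, eval_C]
    ring
  rw [Finset.sum_congr rfl fun i _ => h1 i, Finset.sum_neg_distrib]
  ring

/-- The polynomial through the values of a polynomial. -/
theorem Lg_self {D : ℕ} {x : Fin (D + 1) → ℝ} (hx : Function.Injective x) {P : ℝ[X]}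
    (hP : P.natDegree ≤ D) : Lg x (fun j => P.eval (x j)) = P := by
  have h1 := Lagrange.eq_interpolate (s := univ) (v := x) (f := P) hx.injOn (by
    rw [Finset.card_univ, Fintype.card_fin]
    exact (Polynomial.degree_le_natDegree).trans_lt (by exact_mod_cast Nat.lt_succ_of_le hP))
  rw [Lagrange.interpolate_apply] at h1
  exact h1.symm

/-- The values of the polynomial. -/
theorem Lg_eval {D : ℕ} {x : Fin (D + 1) → ℝ} (hx : Function.Injective x) (y : Fin (D + 1) → ℝ)
    (i : Fin (D + 1)) : (Lg x y).eval (x i) = y i := by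
  have h1 := Lagrange.eval_interpolate_at_node (s := univ) (v := x) y hx.injOn (mem_univ i)
  rw [Lagrange.interpolate_apply] at h1
  exact h1

/-- **The weights kill the polynomials of degree `D`.** -/
theorem lw_kill {D : ℕ} {u : Fin (D + 2) → ℝ} (hu : Function.Injective u) {P : ℝ[X]}
    (hP : P.natDegree ≤ D) : ∑ i, lw D u i * P.eval (u i) = 0 := by
  rw [lw_sum, Lg_self (x := fun j => u (Fin.castSucc j))
    (fun a b h => Fin.castSucc_injective _ (hu h)) hP, sub_self]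

end lw

section gp

variable {K N₀ : ℕ} {t : Fin (K + 1) → ℕ}

/-- Two times are far apart. -/
theorem sep_gp (ht : ∀ i, t i < N₀) (hinj : Function.Injective t) {i k : Fin (K + 1)}
    (hik : i ≠ k) : 1 / (2 * gp N₀ t) ≤ |(t i : ℝ) / N₀ - t k / N₀| := by
  have hN : 0 < N₀ := Nat.zero_lt_of_lt (ht 0)
  have hN' : (0 : ℝ) < N₀ := by exact_mod_cast hN
  have hg := one_gp ht
  have h2 := fac_le ht hik
  have h3 : (1 : ℝ) ≤ |(t i : ℝ) - t k| := by
    have h4 : t i ≠ t k := fun h => hik (hinj h)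
    rcases lt_or_gt_of_ne h4 with h5 | h5
    · have h6 : (t i : ℝ) + 1 ≤ t k := by exact_mod_cast h5
      rw [abs_sub_comm]
      exact (le_trans (by linarith) (le_abs_self _))
    · have h6 : (t k : ℝ) + 1 ≤ t i := by exact_mod_cast h5
      exact (le_trans (by linarith) (le_abs_self _))
  rw [div_le_iff₀ (by positivity)] at h2
  rw [← sub_div, abs_div, abs_of_pos hN', div_le_div_iff₀ (by positivity) hN']
  have h7 : gp N₀ t * (|(t i : ℝ) - t k| + 1) ≤ gp N₀ t * (2 * |(t i : ℝ) - t k|) :=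
    mul_le_mul_of_nonneg_left (by linarith) (by linarith)
  linarith

end gp

/-- **The weights are bounded.** -/
theorem lw_bd {D N₀ : ℕ} {t : Fin (D + 2) → ℕ} (ht : ∀ i, t i < N₀) (hinj : Function.Injective t)
    (i : Fin (D + 2)) : |lw D (fun j => (t j : ℝ) / N₀) i| ≤ (2 * gp N₀ t) ^ (D + 1) := by
  have hN : 0 < N₀ := Nat.zero_lt_of_lt (ht 0)
  have hN' : (0 : ℝ) < N₀ := by exact_mod_cast hN
  have hg := one_gp ht
  have hg1 : 1 ≤ 2 * gp N₀ t := by linarith
  rcases Fin.eq_castSucc_or_eq_last i with ⟨i, rfl⟩ | rfl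
  · rw [lw_cast, abs_neg]
    unfold Lagrange.basis
    rw [Polynomial.eval_prod, Finset.abs_prod]
    have h1 : ∀ j ∈ univ.erase i, |(Lagrange.basisDivisor ((t (Fin.castSucc i) : ℝ) / N₀)
        ((t (Fin.castSucc j) : ℝ) / N₀)).eval ((t (Fin.last (D + 1)) : ℝ) / N₀)| ≤
        2 * gp N₀ t := by
      intro j hj
      have hij : i.castSucc ≠ j.castSucc := fun h =>
        (Finset.ne_of_mem_erase hj) (Fin.castSucc_injective _ h.symm)
      have h2 := sep_gp ht hinj hij
      unfold Lagrange.basisDivisor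
      rw [Polynomial.eval_mul, Polynomial.eval_C, Polynomial.eval_sub, Polynomial.eval_X,
        Polynomial.eval_C, abs_mul, abs_inv]
      have h3 : |(t (Fin.last (D + 1)) : ℝ) / N₀ - (t (Fin.castSucc j) : ℝ) / N₀| ≤ 1 := by
        have a1 : (t (Fin.last (D + 1)) : ℝ) / N₀ ≤ 1 := by
          rw [div_le_one hN']
          exact_mod_cast (ht _).le
        have a2 : (t (Fin.castSucc j) : ℝ) / N₀ ≤ 1 := by
          rw [div_le_one hN']
          exact_mod_cast (ht _).le
        have a3 : 0 ≤ (t (Fin.last (D + 1)) : ℝ) / N₀ := by positivity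
        have a4 : 0 ≤ (t (Fin.castSucc j) : ℝ) / N₀ := by positivity
        rw [abs_le]
        constructor <;> linarith
      have h4 : |(t (Fin.castSucc i) : ℝ) / N₀ - (t (Fin.castSucc j) : ℝ) / N₀|⁻¹ ≤
          2 * gp N₀ t := by
        have h5 : 0 < 1 / (2 * gp N₀ t) := by positivity
        calc _ ≤ (1 / (2 * gp N₀ t))⁻¹ := inv_anti₀ h5 h2
          _ = 2 * gp N₀ t := by rw [one_div, inv_inv]
      calc _ ≤ (2 * gp N₀ t) * 1 := mul_le_mul h4 h3 (abs_nonneg _) (by linarith)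
        _ = _ := mul_one _
    refine (Finset.prod_le_prod (fun j _ => abs_nonneg _) h1).trans ?_
    rw [Finset.prod_const]
    refine pow_le_pow_right₀ hg1 ?_
    rw [Finset.card_erase_of_mem (mem_univ _), Finset.card_univ, Fintype.card_fin]
    omega
  · rw [lw_last, abs_one]
    exact one_le_pow₀ hg1

/-! ### The selection -/

section sel

variable {Ω Λ : Type} [Fintype Ω] {q : Ω → ℝ}

theorem tup_snoc_eq (q : Ω → ℝ) (L : Ω → Λ) (N : ℕ) (w : Fin (N + 1) → Ω) (ω : Ω) :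
    tup q L (N + 1) (Fin.snoc (α := fun _ => Ω) w ω) =
      tup q L N w * cond q L (L (w 0)) ω := by
  unfold tup
  rw [Fin.prod_univ_castSucc]
  have e0 : (Fin.snoc (α := fun _ => Ω) w ω : Fin (N + 2) → Ω) 0 = w 0 :=
    Fin.snoc_castSucc (α := fun _ => Ω) ω w 0
  have e1 : (Fin.snoc (α := fun _ => Ω) w ω : Fin (N + 2) → Ω) (Fin.last N).succ = ω :=
    Fin.snoc_last (α := fun _ => Ω) ω w
  have e2 : ∀ j : Fin N, (Fin.snoc (α := fun _ => Ω) w ω : Fin (N + 2) → Ω) j.castSucc.succ =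
      w j.succ := by
    intro j
    have := Fin.snoc_castSucc (α := fun _ => Ω) ω w j.succ
    rw [← Fin.castSucc_succ]
    exact this
  rw [e0, e1]
  simp only [e2]
  ring

open Classical in
/-- The sum over the tuples. -/
theorem Pb_snoc (q : Ω → ℝ) (L : Ω → Λ) (N : ℕ) (B : (Fin (N + 2) → Ω) → Prop) :
    Pb (tup q L (N + 1)) B = ∑ w, tup q L N w *
      Pb (cond q L (L (w 0))) (fun ω => B (Fin.snoc (α := fun _ => Ω) w ω)) := by
  unfold Pool.BFL.Pb
  have h1 := Fintype.sum_equiv (Fin.snocEquiv (fun _ : Fin (N + 2) => Ω)).symm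
    (fun v : Fin (N + 2) → Ω => if B v then tup q L (N + 1) v else 0)
    (fun x : Ω × (Fin (N + 1) → Ω) => if B (Fin.snoc (α := fun _ => Ω) x.2 x.1) then
      tup q L (N + 1) (Fin.snoc (α := fun _ => Ω) x.2 x.1) else 0) (by
      intro v
      have h2 : (Fin.snoc (α := fun _ => Ω)
          ((Fin.snocEquiv (fun _ : Fin (N + 2) => Ω)).symm v).2
          ((Fin.snocEquiv (fun _ : Fin (N + 2) => Ω)).symm v).1) = v :=
        (Fin.snocEquiv (fun _ : Fin (N + 2) => Ω)).apply_symm_apply v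
      rw [h2])
  rw [h1, Fintype.sum_prod_type_right]
  refine Finset.sum_congr rfl fun w _ => ?_
  rw [Finset.mul_sum]
  refine Finset.sum_congr rfl fun ω _ => ?_
  simp only
  rw [tup_snoc_eq]
  split_ifs <;> simp

/-- **The best samples of every line.** -/
theorem tup_sel (hq : IsLaw q) (L : Ω → Λ) (N : ℕ) (B : (Fin (N + 2) → Ω) → Prop) :
    ∃ g : Λ → Fin (N + 1) → Ω,
      (∀ ω, 0 < q ω → ∀ j, 0 < q (g (L ω) j) ∧ L (g (L ω) j) = L ω) ∧
      Pb q (fun ω => B (Fin.snoc (α := fun _ => Ω) (g (L ω)) ω)) ≤ Pb (tup q L (N + 1)) B := by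
  classical
  have h0 := hq.nonneg
  obtain ⟨ω₀, hω₀⟩ : ∃ ω, 0 < q ω := by
    by_contra hcon
    push Not at hcon
    have h2 := hq.sum_one
    have h3 : ∑ ω, q ω ≤ 0 := Finset.sum_nonpos fun ω _ => hcon ω
    linarith
  obtain ⟨f, hf⟩ : ∃ f : Λ → (Fin (N + 1) → Ω) → ℝ, f = fun l w =>
    Pb (cond q L l) (fun ω => B (Fin.snoc (α := fun _ => Ω) w ω)) := ⟨_, rfl⟩
  have hex : ∀ l : Λ, ∃ g : Fin (N + 1) → Ω, (∀ ω, 0 < q ω → L ω = l →
      ∀ j, 0 < q (g j) ∧ L (g j) = l) ∧ ∀ w, 0 < tup q L N w → L (w 0) = l → f l g ≤ f l w := by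
    intro l
    by_cases hl : ∃ ω, 0 < q ω ∧ L ω = l
    · obtain ⟨ω, hω, hωl⟩ := hl
      obtain ⟨g, hg, hmin⟩ := Finset.exists_min_image
        ((univ : Finset (Fin (N + 1) → Ω)).filter fun w => 0 < tup q L N w ∧ L (w 0) = l) (f l)
        ⟨fun _ => ω, Finset.mem_filter.mpr ⟨mem_univ _,
          (tup_pos_iff h0 L N _).mpr ⟨fun _ => hω, fun _ => rfl⟩, hωl⟩⟩
      obtain ⟨-, hg1, hg2⟩ := Finset.mem_filter.mp hg
      obtain ⟨hg3, hg4⟩ := (tup_pos_iff h0 L N g).mp hg1
      exact ⟨g, fun _ _ _ j => ⟨hg3 j, (hg4 j).trans hg2⟩, fun w hw hwl =>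
        hmin w (Finset.mem_filter.mpr ⟨mem_univ _, hw, hwl⟩)⟩
    · refine ⟨fun _ => ω₀, fun ω hω hωl => (hl ⟨ω, hω, hωl⟩).elim, fun w hw hwl => ?_⟩
      exact (hl ⟨w 0, ((tup_pos_iff h0 L N w).mp hw).1 0, hwl⟩).elim
  choose g hg using hex
  refine ⟨g, fun ω hω j => (hg (L ω)).1 ω hω rfl j, ?_⟩
  rw [Pb_snoc]
  have h1 : ∑ w, tup q L N w * f (L (w 0)) (g (L (w 0))) ≤
      ∑ w, tup q L N w * f (L (w 0)) w := by
    refine Finset.sum_le_sum fun w _ => ?_
    rcases (tup_nonneg h0 L N w).eq_or_lt with hw | hw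
    · rw [← hw, zero_mul, zero_mul]
    · exact mul_le_mul_of_nonneg_left ((hg (L (w 0))).2 w hw rfl) hw.le
  have h2 : ∑ w, tup q L N w * f (L (w 0)) w = ∑ w, tup q L N w *
      Pb (cond q L (L (w 0))) (fun ω => B (Fin.snoc (α := fun _ => Ω) w ω)) := by
    rw [hf]
  rw [← h2]
  refine le_trans (le_of_eq ?_) h1
  -- the line of the tuple has the law of the line
  have h3 : ∑ w, tup q L N w * f (L (w 0)) (g (L (w 0))) = ∑ ω, q ω * f (L ω) (g (L ω)) := by
    exact (tup_marg h0 L N 0).ex (fun ω => f (L ω) (g (L ω)))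
  rw [h3, hf]
  have h5 : ∀ ω, q ω * Pb (cond q L (L ω)) (fun ω' =>
      B (Fin.snoc (α := fun _ => Ω) (g (L ω)) ω')) =
      ∑ ω', if B (Fin.snoc (α := fun _ => Ω) (g (L ω)) ω') then
        q ω * cond q L (L ω) ω' else 0 := by
    intro ω
    unfold Pool.BFL.Pb
    rw [Finset.mul_sum]
    refine Finset.sum_congr rfl fun ω' _ => ?_
    split_ifs <;> simp
  rw [Finset.sum_congr rfl fun ω _ => h5 ω, Finset.sum_comm]
  unfold Pool.BFL.Pb
  refine Finset.sum_congr rfl fun ω' _ => ?_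
  have h6 : ∀ ω, (if B (Fin.snoc (α := fun _ => Ω) (g (L ω)) ω') then
      q ω * cond q L (L ω) ω' else 0) =
      (if B (Fin.snoc (α := fun _ => Ω) (g (L ω')) ω') then
        (if L ω = L ω' then q ω * (q ω' / law q L (L ω')) else 0) else 0) := by
    intro ω
    unfold Pool.Agent.H49.Ent.cond
    by_cases h : L ω' = L ω
    · rw [if_pos h, if_pos h.symm, h]
    · rw [if_neg h, if_neg (Ne.symm h), mul_zero]
      split_ifs <;> rfl
  rw [Finset.sum_congr rfl fun ω _ => h6 ω]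
  by_cases hB : B (Fin.snoc (α := fun _ => Ω) (g (L ω')) ω')
  · simp only [if_pos hB]
    rw [← Finset.sum_filter, ← Finset.sum_mul]
    rcases (h0 ω').eq_or_lt with h | h
    · rw [← h]
      simp
    · have h7 := law_pos h0 L h
      have h8 : ∑ ω ∈ univ.filter (fun ω => L ω = L ω'), q ω = law q L (L ω') := by
        unfold Pool.Agent.H49.Ent.law
        rw [Finset.sum_filter]
      rw [h8]
      field_simp
  · simp only [if_neg hB, Finset.sum_const_zero]

end sel

/-! ### The times are far apart -/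

section far

variable {Ω Λ : Type} [Fintype Ω] {q : Ω → ℝ}

/-- The mean of the logarithm of the inverse distances. -/
theorem ex_gp {K N₀ : ℕ} (hq : IsLaw q) (L : Ω → Λ) (T : Ω → ℕ) (hT : ∀ ω, 0 < q ω → T ω < N₀)
    {e : ℝ} (he : Real.log N₀ - e ≤ CH q T L) :
    Ex (tup q L K) (fun v => Real.log (gp N₀ (fun j => T (v j)))) ≤
      (K + 1) * (K + 1) * (2 * e + 2 * Real.log 4) := by
  classical
  have h0 := hq.nonneg
  obtain ⟨ω₀, hω₀⟩ : ∃ ω, 0 < q ω := by
    by_contra hcon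
    push Not at hcon
    have h2 := hq.sum_one
    have h3 : ∑ ω, q ω ≤ 0 := Finset.sum_nonpos fun ω _ => hcon ω
    linarith
  have hN : 0 < N₀ := Nat.zero_lt_of_lt (hT ω₀ hω₀)
  have l4 : 0 ≤ Real.log 4 := Real.log_nonneg (by norm_num)
  obtain ⟨Q, hQ⟩ : ∃ Q : (Fin (K + 1) → Ω) → ℝ, Q = tup q L K := ⟨_, rfl⟩
  have hQl : IsLaw Q := by
    rw [hQ]
    exact tup_isLaw hq L K
  have hpos : ∀ v, 0 < Q v → (∀ j, 0 < q (v j)) ∧ ∀ j, L (v j) = L (v 0) := fun v hv => by
    rw [hQ] at hv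
    exact (tup_pos_iff h0 L K v).mp hv
  have he0 : 0 ≤ e := by
    have h1 : CH q T L ≤ Real.log N₀ := by
      refine (CH_le_card h0 hq.sum_one T L (fun _ => range N₀) fun ω hω =>
        Finset.mem_range.mpr (hT ω hω)).trans (le_of_eq ?_)
      rw [Finset.card_range, Ex_const hq.sum_one]
    linarith
  rw [← hQ]
  have h7 : Ex Q (fun v => Real.log (gp N₀ (fun j => T (v j)))) =
      ∑ i, ∑ j ∈ univ.erase i, Ex Q (fun v =>
        Real.log ((N₀ : ℝ) / (|(T (v i) : ℝ) - T (v j)| + 1))) := by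
    simp only [log_gp hN]
    unfold Ex
    rw [Finset.sum_congr rfl fun v _ => Finset.mul_sum _ _ _, Finset.sum_comm]
    refine Finset.sum_congr rfl fun i _ => ?_
    rw [Finset.sum_congr rfl fun v _ => Finset.mul_sum _ _ _, Finset.sum_comm]
  rw [h7]
  have h8 : ∀ i j : Fin (K + 1), i ≠ j → Ex Q (fun v =>
      Real.log ((N₀ : ℝ) / (|(T (v i) : ℝ) - T (v j)| + 1))) ≤ 2 * e + 2 * Real.log 4 := by
    intro i j hij
    refine far_log hQl (fun v => T (v i)) (fun v => T (v j)) (fun v hv => hT _ ((hpos v hv).1 i))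
      (fun v hv => hT _ ((hpos v hv).1 j)) (he.trans ?_)
    have h9 : Marg Q (glue q q L L) (fun v => (v i, v j)) := by
      rw [hQ]
      exact tup_two h0 L i j hij
    have h10 := h9.CH (fun w => T w.2) (fun w => T w.1)
    have h11 : CH Q (fun v => T (v j)) (fun v => T (v i)) =
        CH (glue q q L L) (fun w => T w.2) (fun w => T w.1) := h10
    rw [h11]
    have h12 := CH_glue_snd h0 h0 (fun _ => rfl) T (Y := L) (Z₁ := L) (Z₂ := L)
      (fun w : Ω => w) (fun _ _ _ _ h => h)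
    rw [← h12]
    exact CH_mono_cond (glue_nonneg h0 h0) fun w w' _ _ h => by
      have := (Prod.ext_iff.mp h).2
      simp only at this
      rw [this]
  have h13 : (0 : ℝ) ≤ 2 * e + 2 * Real.log 4 := by positivity
  calc _ ≤ ∑ i : Fin (K + 1), ∑ _j ∈ univ.erase i, (2 * e + 2 * Real.log 4) :=
        Finset.sum_le_sum fun i _ => Finset.sum_le_sum fun j hj =>
          h8 i j (Finset.ne_of_mem_erase hj).symm
    _ ≤ ∑ _i : Fin (K + 1), ∑ _j : Fin (K + 1), (2 * e + 2 * Real.log 4) :=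
        Finset.sum_le_sum fun i _ => Finset.sum_le_sum_of_subset_of_nonneg
          (Finset.erase_subset _ _) fun _ _ _ => h13
    _ = _ := by
        simp only [Finset.sum_const, Finset.card_univ, Fintype.card_fin, nsmul_eq_mul]
        push_cast
        ring

/-- **The times are far apart** outside a small event. -/
theorem gp_far {K N₀ : ℕ} (hq : IsLaw q) (L : Ω → Λ) (T : Ω → ℕ) (hT : ∀ ω, 0 < q ω → T ω < N₀)
    {e x : ℝ} (he : Real.log N₀ - e ≤ CH q T L) :
    Pb (tup q L K) (fun v => (2 : ℝ) ^ x < gp N₀ (fun j => T (v j))) * (x * Real.log 2) ≤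
      (K + 1) * (K + 1) * (2 * e + 2 * Real.log 4) := by
  classical
  refine le_trans ?_ (ex_gp hq L T hT he)
  have h0 := tup_nonneg hq.nonneg L K
  unfold Pool.BFL.Pb Ex
  rw [Finset.sum_mul]
  refine Finset.sum_le_sum fun v _ => ?_
  rcases (h0 v).eq_or_lt with h | h
  · rw [← h]
    simp
  · have h1 := one_gp (t := fun j => T (v j)) (N₀ := N₀) fun i =>
      hT _ (((tup_pos_iff hq.nonneg L K v).mp h).1 i)
    split_ifs with h2
    · refine mul_le_mul_of_nonneg_left ?_ h.le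
      rw [← Real.log_rpow (by norm_num)]
      exact Real.log_le_log (by positivity) h2.le
    · rw [zero_mul]
      exact mul_nonneg h.le (Real.log_nonneg h1)

end far

/-! ### The polynomial of the line -/

section wts

open Polynomial

variable {Ω Λ : Type} [Fintype Ω] {q : Ω → ℝ}

/-- **Weights**: no fullness, no bound. -/
theorem wts_raw (D : ℕ) (hq : IsLaw q) (L : Ω → Λ) (u : Ω → ℝ) {ι : Type} (v : Ω → ι → ℝ)
    (lam : ℝ) : ∃ Pt : Λ → ι → ℝ[X], (∀ l b, (Pt l b).natDegree ≤ D) ∧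
      Pb q (fun ω => ∃ b, lam < |v ω b - (Pt (L ω) b).eval (u ω)|) ≤
        Pb (tup q L (D + 1)) (fun w => ∃ b,
          lam < |∑ i, lw D (fun j => u (w j)) i * v (w i) b|) := by
  obtain ⟨g, _, hg⟩ := tup_sel hq L D (fun w => ∃ b,
          lam < |∑ i, lw D (fun j => u (w j)) i * v (w i) b|)
  refine ⟨fun l b => Lg (fun j => u (g l j)) (fun j => v (g l j) b), fun l b => Lg_deg _ _, ?_⟩
  refine le_trans (Pb_imp hq.nonneg fun ω _ h => ?_) hg
  obtain ⟨b, hb⟩ := h
  refine ⟨b, ?_⟩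
  rw [lw_sum (fun j => u ((Fin.snoc (α := fun _ => Ω) (g (L ω)) ω : Fin (D + 2) → Ω) j))
    (fun i => v ((Fin.snoc (α := fun _ => Ω) (g (L ω)) ω : Fin (D + 2) → Ω) i) b)]
  simp only [Fin.snoc_last (α := fun _ => Ω), Fin.snoc_castSucc (α := fun _ => Ω)]
  exact hb

/-- The coefficients of the polynomial through values at times which are far apart. -/
theorem Lg_coef {D N₀ : ℕ} {t : Fin (D + 2) → ℕ} (ht : ∀ i, t i < N₀)
    (hinj : Function.Injective t) {y : Fin (D + 1) → ℝ} {B : ℝ} (hy : ∀ i, |y i| ≤ B) (n : ℕ) :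
    |(Lg (fun j : Fin (D + 1) => (t (Fin.castSucc j) : ℝ) / N₀) y).coeff n| ≤
      (10 * gp N₀ t) ^ D * B := by
  classical
  have hN : 0 < N₀ := Nat.zero_lt_of_lt (ht 0)
  have hN' : (0 : ℝ) < N₀ := by exact_mod_cast hN
  have hg := one_gp ht
  have hinj' : Function.Injective (fun j : Fin (D + 1) => (t (Fin.castSucc j) : ℝ) / N₀) := by
    intro a b hab
    have h1 : (t (Fin.castSucc a) : ℝ) = t (Fin.castSucc b) := by
      field_simp at hab
      exact hab
    exact Fin.castSucc_injective _ (hinj (by exact_mod_cast h1))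
  obtain ⟨s, hs⟩ : ∃ s : Finset ℝ, s = univ.image
    (fun j : Fin (D + 1) => (t (Fin.castSucc j) : ℝ) / N₀) := ⟨_, rfl⟩
  have h1 := Pool.D2P.poly_pts (R := 1) (r := 1 / (2 * gp N₀ t)) zero_le_one (by positivity) (by
    rw [div_le_one (by positivity)]
    linarith) D (Lg (fun j : Fin (D + 1) => (t (Fin.castSucc j) : ℝ) / N₀) y) B s (Lg_deg _ _)
    (by
      rw [hs, Finset.card_image_of_injective _ hinj', Finset.card_univ, Fintype.card_fin]
      exact Nat.lt_succ_self D)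
    (by
      intro x hx
      rw [hs] at hx
      obtain ⟨i, _, rfl⟩ := Finset.mem_image.mp hx
      have h2 : (t (Fin.castSucc i) : ℝ) ≤ N₀ := by exact_mod_cast (ht _).le
      rw [abs_of_nonneg (by positivity), div_le_one hN']
      exact h2)
    (by
      intro x hx y hy hxy
      rw [hs] at hx hy
      obtain ⟨i, _, rfl⟩ := Finset.mem_image.mp hx
      obtain ⟨k, _, rfl⟩ := Finset.mem_image.mp hy
      refine sep_gp ht hinj fun h => ?_
      rw [h] at hxy
      exact hxy rfl)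
    (by
      intro x hx
      rw [hs] at hx
      obtain ⟨i, _, rfl⟩ := Finset.mem_image.mp hx
      rw [Lg_eval hinj' y i]
      exact hy i) n
  refine h1.trans (le_of_eq ?_)
  have h2 : (3 + 2 * (1 : ℝ)) / (1 / (2 * gp N₀ t)) = 10 * gp N₀ t := by
    field_simp
    norm_num
  rw [h2]

/-- **Weights**, with bounded coefficients. -/
theorem wts (D : ℕ) {ε : ℝ} (hε : 0 < ε) : ∃ δ : ℝ, 0 < δ ∧ ∃ Q₀ : ℕ, ∀ {Q N₀ M' : ℕ},
    Q₀ ≤ Q → 2 ^ Q ≤ N₀ → ∀ {Ω Λ ι : Type} [Fintype Ω] {q : Ω → ℝ} {L : Ω → Λ} {T : Ω → ℕ}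
    {v : Ω → ι → ℝ}, IsLaw q → (∀ ω, 0 < q ω → T ω < N₀) → Real.log N₀ - δ * Q ≤ CH q T L →
    (∀ ω, 0 < q ω → ∀ b, |v ω b| ≤ 2 ^ (δ * Q)) →
    Pb (tup q L (D + 1)) (fun w => ∃ b, 2 ^ (δ * Q) / 2 ^ M' <
      |∑ i, lw D (fun j => uu N₀ T (w j)) i * v (w i) b|) ≤ δ →
    ∃ Pt : Λ → ι → ℝ[X], (∀ l b, (Pt l b).natDegree ≤ D) ∧
      (∀ l b j, |(Pt l b).coeff j| ≤ 2 ^ (ε * Q)) ∧
      Pb q (fun ω => ∃ b, 2 ^ (ε * Q) / 2 ^ M' < |v ω b - (Pt (L ω) b).eval (uu N₀ T ω)|) ≤ ε := by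
  classical
  have l2 : 0 < Real.log 2 := Real.log_pos (by norm_num)
  have hD : (0 : ℝ) ≤ D := Nat.cast_nonneg D
  obtain ⟨e1, he1⟩ : ∃ e1 : ℝ, e1 = min (ε / (4 * (D + 1))) (1 / 2) := ⟨_, rfl⟩
  have e1p : 0 < e1 := by rw [he1]; positivity
  have e1a : e1 ≤ 1 / 2 := by rw [he1]; exact min_le_right _ _
  have e1b : D * e1 ≤ ε / 4 := by
    have h1 : e1 ≤ ε / (4 * (D + 1)) := by rw [he1]; exact min_le_left _ _
    rw [le_div_iff₀ (by positivity)] at h1
    nlinarith
  obtain ⟨δ, hδ⟩ : ∃ δ : ℝ, δ = min (ε / 4) (e1 * ε * Real.log 2 / (8 * ((D + 2) * (D + 2)))) :=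
    ⟨_, rfl⟩
  have δp : 0 < δ := by rw [hδ]; positivity
  have δa : δ ≤ ε / 4 := by rw [hδ]; exact min_le_left _ _
  have δb : (D + 2) * (D + 2) * (2 * δ) ≤ ε / 4 * (e1 * Real.log 2) := by
    have h1 : δ ≤ e1 * ε * Real.log 2 / (8 * ((D + 2) * (D + 2))) := by
      rw [hδ]; exact min_le_right _ _
    rw [le_div_iff₀ (by positivity)] at h1
    nlinarith
  obtain ⟨Q₀, hQ₀⟩ := exists_nat_ge (16 * ((D + 2) * (D + 2)) / (e1 * ε) + 8 * D / ε + 1)
  refine ⟨δ, δp, Q₀, ?_⟩
  intro Q N₀ M' hQQ hQN Ω Λ ι _ q L T v hq hT hf hv hP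
  have h0 := hq.nonneg
  have hQr : 16 * ((D + 2) * (D + 2)) / (e1 * ε) + 8 * D / ε + 1 ≤ (Q : ℝ) :=
    hQ₀.trans (by exact_mod_cast hQQ)
  have p1 : 0 ≤ 16 * ((D + 2) * (D + 2)) / (e1 * ε) := by positivity
  have p2 : 0 ≤ 8 * D / ε := by positivity
  have hQ1 : (1 : ℝ) ≤ Q := by linarith
  have hQ2 : 16 * ((D + 2) * (D + 2)) ≤ Q * (e1 * ε) := by
    rw [← div_le_iff₀ (by positivity)]
    linarith
  have hQ3 : 8 * D ≤ Q * ε := by
    rw [← div_le_iff₀ hε]
    linarith
  -- far times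
  have hfar : Pb (tup q L (D + 1)) (fun w => (2 : ℝ) ^ (e1 * Q) < gp N₀ (fun j => T (w j))) ≤
      ε / 2 := by
    have h1 := gp_far (K := D + 1) (x := e1 * Q) hq L T hT hf
    have h4 : Real.log 4 = 2 * Real.log 2 := by
      rw [show (4 : ℝ) = 2 ^ 2 by norm_num, Real.log_pow]
      norm_num
    rw [h4] at h1
    have h2 : ((D + 1 : ℕ) + 1 : ℝ) * ((D + 1 : ℕ) + 1) * (2 * (δ * Q) + 2 * (2 * Real.log 2)) ≤
        ε / 2 * (e1 * Q * Real.log 2) := by
      push_cast
      have g1 := mul_le_mul_of_nonneg_right δb (show (0 : ℝ) ≤ Q by linarith)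
      have g2 := mul_le_mul_of_nonneg_right hQ2 l2.le
      nlinarith [g1, g2]
    exact le_of_mul_le_mul_right (h1.trans h2) (by positivity)
  obtain ⟨B, hB⟩ : ∃ B : (Fin (D + 2) → Ω) → Prop, B = fun w => (∃ b, 2 ^ (δ * Q) / 2 ^ M' <
      |∑ i, lw D (fun j => uu N₀ T (w j)) i * v (w i) b|) ∨
      (2 : ℝ) ^ (e1 * Q) < gp N₀ (fun j => T (w j)) := ⟨_, rfl⟩
  have hBP : Pb (tup q L (D + 1)) B ≤ ε := by
    have h1 : Pb (tup q L (D + 1)) B ≤ Pb (tup q L (D + 1)) (fun w => ∃ b, 2 ^ (δ * Q) / 2 ^ M' <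
      |∑ i, lw D (fun j => uu N₀ T (w j)) i * v (w i) b|) +
      Pb (tup q L (D + 1)) (fun w => (2 : ℝ) ^ (e1 * Q) < gp N₀ (fun j => T (w j))) := by
      have h9 := tup_nonneg h0 L (D + 1)
      rw [hB]
      unfold Pool.BFL.Pb
      rw [← Finset.sum_add_distrib]
      refine Finset.sum_le_sum fun w _ => ?_
      have h8 := h9 w
      split_ifs with a1 a2 a3 a4 a5 <;> first | linarith | (exfalso; tauto)
    linarith
  obtain ⟨g, hg1, hg2⟩ := tup_sel hq L D B
  obtain ⟨Gd, hGd⟩ : ∃ Gd : Λ → Prop, Gd = fun l => ∃ ω, 0 < q ω ∧ L ω = l ∧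
    ¬ B (Fin.snoc (α := fun _ => Ω) (g l) ω) := ⟨_, rfl⟩
  refine ⟨fun l b => if Gd l then Lg (fun j => uu N₀ T (g l j)) (fun j => v (g l j) b) else 0,
    fun l b => ?_, fun l b n => ?_, ?_⟩
  · simp only
    split_ifs
    · exact Lg_deg _ _
    · rw [Polynomial.natDegree_zero]
      exact Nat.zero_le _
  · simp only
    split_ifs with hl
    · rw [hGd] at hl
      obtain ⟨ω, hω, rfl, hnB⟩ := hl
      rw [hB] at hnB
      simp only [not_or, not_lt] at hnB
      obtain ⟨-, hgp⟩ := hnB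
      obtain ⟨t, htd⟩ : ∃ t : Fin (D + 2) → ℕ, t = fun j =>
        T ((Fin.snoc (α := fun _ => Ω) (g (L ω)) ω : Fin (D + 2) → Ω) j) := ⟨_, rfl⟩
      have htl : ∀ i, t i < N₀ := by
        intro i
        rw [htd]
        rcases Fin.eq_castSucc_or_eq_last i with ⟨i, rfl⟩ | rfl
        · simp only [Fin.snoc_castSucc (α := fun _ => Ω)]
          exact hT _ (hg1 ω hω i).1
        · simp only [Fin.snoc_last (α := fun _ => Ω)]
          exact hT _ hω
      have hgp' : gp N₀ t ≤ 2 ^ (e1 * Q) := by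
        rw [htd]
        exact hgp
      have hinj : Function.Injective t := by
        intro a b hab
        by_contra hne
        have h1 := fac_le htl hne
        rw [hab, sub_self, abs_zero, zero_add, div_one] at h1
        have h2 : (2 : ℝ) ^ Q ≤ N₀ := by exact_mod_cast hQN
        have h3 : (2 : ℝ) ^ (e1 * Q) < 2 ^ Q := by
          rw [← Real.rpow_natCast]
          refine Real.rpow_lt_rpow_of_exponent_lt (by norm_num) ?_
          nlinarith
        linarith
      have htn : ∀ j : Fin (D + 1), t (Fin.castSucc j) = T (g (L ω) j) := by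
        intro j
        rw [htd]
        simp only [Fin.snoc_castSucc (α := fun _ => Ω)]
      have h1 := Lg_coef htl hinj (y := fun j => v (g (L ω) j) b) (B := 2 ^ (δ * Q))
        (fun i => hv _ (hg1 ω hω i).1 b) n
      have h2 : (fun j : Fin (D + 1) => uu N₀ T (g (L ω) j)) =
          fun j : Fin (D + 1) => (t (Fin.castSucc j) : ℝ) / N₀ := by
        funext j
        rw [htn]
        rfl
      rw [h2]
      refine h1.trans ?_
      have hg0 := one_gp htl
      calc (10 * gp N₀ t) ^ D * 2 ^ (δ * Q) ≤ (16 * 2 ^ (e1 * Q)) ^ D * 2 ^ (δ * Q) := by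
            refine mul_le_mul_of_nonneg_right (pow_le_pow_left₀ (by linarith) ?_ _) (by positivity)
            have h3 : (0 : ℝ) < 2 ^ (e1 * Q) := by positivity
            nlinarith
        _ = 2 ^ ((4 + e1 * Q) * D + δ * Q) := by
            have h4 : (16 : ℝ) * 2 ^ (e1 * Q) = 2 ^ (4 + e1 * Q) := by
              rw [Real.rpow_add (by norm_num)]
              norm_num
            rw [h4, ← Real.rpow_natCast, ← Real.rpow_mul (by norm_num),
              ← Real.rpow_add (by norm_num)]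
        _ ≤ 2 ^ (ε * Q) := by
            refine Real.rpow_le_rpow_of_exponent_le (by norm_num) ?_
            have g1 := mul_le_mul_of_nonneg_right e1b (show (0 : ℝ) ≤ Q by linarith)
            have g2 := mul_le_mul_of_nonneg_right δa (show (0 : ℝ) ≤ Q by linarith)
            nlinarith
    · rw [Polynomial.coeff_zero, abs_zero]
      positivity
  · refine le_trans (Pb_imp h0 fun ω hω h => ?_) (hg2.trans hBP)
    by_contra hnB
    obtain ⟨b, hb⟩ := h
    have hGl : Gd (L ω) := by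
      rw [hGd]
      exact ⟨ω, hω, rfl, hnB⟩
    simp only [if_pos hGl] at hb
    apply hnB
    rw [hB]
    left
    refine ⟨b, ?_⟩
    rw [lw_sum (fun j => uu N₀ T ((Fin.snoc (α := fun _ => Ω) (g (L ω)) ω : Fin (D + 2) → Ω) j))
      (fun i => v ((Fin.snoc (α := fun _ => Ω) (g (L ω)) ω : Fin (D + 2) → Ω) i) b)]
    simp only [Fin.snoc_last (α := fun _ => Ω), Fin.snoc_castSucc (α := fun _ => Ω)]
    refine lt_of_le_of_lt (div_le_div_of_nonneg_right ?_ (by positivity)) hb
    refine Real.rpow_le_rpow_of_exponent_le (by norm_num) ?_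
    nlinarith

end wts

end Pool.V1E
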