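import Pool.Agent.H87.SLO.Tup
import Pool.Agent.H68.OWN.Jd
import Pool.Agent.H4.D2.Rpl

/-!
# A polynomial of the line is read at one time

`nodes`: let `R` be a polynomial of bounded degree which is a function of the line. If its value at the
time is few bits given a function `c` of the line and the time, and the time is nearly full given the
line, then all the coefficients are few bits given `c`.
-/

set_option autoImplicit false

namespace Pool.D2N

open Finset Real
open Pool.Agent.H49.Ent Pool.Agent.H32.Dense Pool.STK Pool.KAF Pool.KVA Pool.OWN68 Pool.SLO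

/-! ### Counting -/

/-- A set of small diameter. -/
theorem card_diam {n : ℕ} {D : ℕ} (F : Finset (Fin n → ℤ))
    (h : ∀ x ∈ F, ∀ y ∈ F, ∀ j, |x j - y j| ≤ (D : ℤ)) : F.card ≤ (2 * D + 1) ^ n := by
  classical
  rcases F.eq_empty_or_nonempty with rfl | ⟨x₀, hx₀⟩
  · simp
  · have h1 : F ⊆ Fintype.piFinset (fun j => Finset.Icc (x₀ j - (D : ℤ)) (x₀ j + D)) := by
      intro y hy
      rw [Fintype.mem_piFinset]
      intro j
      have h2 := abs_le.mp (h y hy x₀ hx₀ j)
      rw [Finset.mem_Icc]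
      constructor <;> linarith [h2.1, h2.2]
    refine (Finset.card_le_card h1).trans ?_
    rw [Fintype.card_piFinset]
    have h3 : ∀ j : Fin n, (Finset.Icc (x₀ j - (D : ℤ)) (x₀ j + D)).card = 2 * D + 1 := by
      intro j
      rw [Int.card_Icc]
      omega
    rw [Finset.prod_congr rfl fun j _ => h3 j, Finset.prod_const, Finset.card_univ,
      Fintype.card_fin]

/-- The sum of the inverse square roots. -/
theorem sum_sqrt (n : ℕ) : ∑ k ∈ range n, 1 / Real.sqrt ((k : ℝ) + 1) ≤ 2 * Real.sqrt n := by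
  induction n with
  | zero => simp
  | succ n ih =>
    rw [Finset.sum_range_succ]
    have h0 : 0 < Real.sqrt ((n : ℝ) + 1) := Real.sqrt_pos.mpr (by positivity)
    have h1 : 1 / Real.sqrt ((n : ℝ) + 1) ≤ 2 * (Real.sqrt ((n : ℝ) + 1) - Real.sqrt n) := by
      rw [div_le_iff₀ h0]
      have h2 := Real.sq_sqrt (show (0 : ℝ) ≤ (n : ℝ) + 1 by positivity)
      have h3 := Real.sq_sqrt (show (0 : ℝ) ≤ (n : ℝ) by positivity)
      nlinarith [sq_nonneg (Real.sqrt ((n : ℝ) + 1) - Real.sqrt n)]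
    push_cast
    linarith

/-- The sum over the distances. -/
theorem sum_dist {N₀ : ℕ} (w : ℕ) (hw : w < N₀) :
    ∑ x ∈ range N₀, Real.sqrt ((N₀ : ℝ) / (|(w : ℝ) - x| + 1)) ≤ 4 * N₀ := by
  classical
  have hN : (0 : ℝ) < N₀ := by exact_mod_cast Nat.zero_lt_of_lt hw
  have h1 : ∀ G : Finset ℕ, (∀ x ∈ G, (w - x) + (x - w) < N₀) →
      Set.InjOn (fun x : ℕ => (w - x) + (x - w)) G →
      ∑ x ∈ G, 1 / Real.sqrt (|(w : ℝ) - x| + 1) ≤ 2 * Real.sqrt N₀ := by
    intro G hG hinj
    have e1 : ∑ x ∈ G, 1 / Real.sqrt (|(w : ℝ) - x| + 1) =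
        ∑ i ∈ G.image (fun x : ℕ => (w - x) + (x - w)), 1 / Real.sqrt ((i : ℝ) + 1) := by
      rw [Finset.sum_image hinj]
      refine Finset.sum_congr rfl fun x _ => ?_
      congr 3
      rcases le_total x w with h | h
      · rw [abs_of_nonneg (by
          have : (x : ℝ) ≤ w := by exact_mod_cast h
          linarith), show x - w = 0 by omega, add_zero, Nat.cast_sub h]
      · rw [abs_of_nonpos (by
          have : (w : ℝ) ≤ x := by exact_mod_cast h
          linarith), show w - x = 0 by omega, zero_add, Nat.cast_sub h]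
        ring
    have e2 : G.image (fun x : ℕ => (w - x) + (x - w)) ⊆ range N₀ := by
      intro i hi
      obtain ⟨x, hx, rfl⟩ := Finset.mem_image.mp hi
      exact Finset.mem_range.mpr (hG x hx)
    rw [e1]
    exact (Finset.sum_le_sum_of_subset_of_nonneg e2 fun i _ _ => by positivity).trans (sum_sqrt N₀)
  have h2 : ∑ x ∈ range N₀, Real.sqrt ((N₀ : ℝ) / (|(w : ℝ) - x| + 1)) =
      Real.sqrt N₀ * ∑ x ∈ range N₀, 1 / Real.sqrt (|(w : ℝ) - x| + 1) := by
    rw [Finset.mul_sum]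
    refine Finset.sum_congr rfl fun x _ => ?_
    rw [Real.sqrt_div hN.le]
    ring
  have h3 : ∑ x ∈ range N₀, 1 / Real.sqrt (|(w : ℝ) - x| + 1) ≤ 2 * (2 * Real.sqrt N₀) := by
    rw [← Finset.sum_filter_add_sum_filter_not (range N₀) (fun x => x ≤ w)]
    have h4 := h1 ((range N₀).filter (fun x => x ≤ w))
      (fun x hx => by
        have := (Finset.mem_filter.mp hx).2
        omega)
      (fun x hx y hy hxy => by
        have h5 := (Finset.mem_filter.mp (Finset.mem_coe.mp hx)).2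
        have h6 := (Finset.mem_filter.mp (Finset.mem_coe.mp hy)).2
        simp only at hxy
        omega)
    have h5 := h1 ((range N₀).filter (fun x => ¬ x ≤ w))
      (fun x hx => by
        have h6 := (Finset.mem_filter.mp hx)
        have h7 := Finset.mem_range.mp h6.1
        omega)
      (fun x hx y hy hxy => by
        have h5 := (Finset.mem_filter.mp (Finset.mem_coe.mp hx)).2
        have h6 := (Finset.mem_filter.mp (Finset.mem_coe.mp hy)).2
        simp only at hxy
        omega)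
    linarith
  rw [h2]
  have h6 := mul_le_mul_of_nonneg_left h3 (Real.sqrt_nonneg (N₀ : ℝ))
  have h7 := Real.mul_self_sqrt hN.le
  nlinarith [h6, h7]

/-! ### Two times are far apart -/

/-- **Two times are far apart**, without loss. -/
theorem far_log {Ω : Type} [Fintype Ω] {Q : Ω → ℝ} (hQ : IsLaw Q) {N₀ : ℕ} (T0 T1 : Ω → ℕ)
    (h0 : ∀ ω, 0 < Q ω → T0 ω < N₀) (h1 : ∀ ω, 0 < Q ω → T1 ω < N₀) {e : ℝ}
    (hf : Real.log N₀ - e ≤ CH Q T1 T0) :
    Ex Q (fun ω => Real.log ((N₀ : ℝ) / (|(T0 ω : ℝ) - T1 ω| + 1))) ≤ 2 * e + 2 * Real.log 4 := by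
  classical
  obtain ⟨ω₀, hω₀⟩ : ∃ ω, 0 < Q ω := by
    by_contra hcon
    push Not at hcon
    have h2 := hQ.sum_one
    have h3 : ∑ ω, Q ω ≤ 0 := Finset.sum_nonpos fun ω _ => hcon ω
    linarith
  have hN : (0 : ℝ) < N₀ := by exact_mod_cast Nat.zero_lt_of_lt (h0 ω₀ hω₀)
  have h2 := CH_le_cross hQ.nonneg hQ.sum_one T1 T0
    (fun w x => (if x < N₀ then Real.sqrt ((N₀ : ℝ) / (|(w : ℝ) - x| + 1)) else 0) / (4 * N₀))
    (by
      intro ω hω
      rw [if_pos (h1 ω hω)]
      positivity)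
    (by
      intro w x
      split_ifs <;> positivity)
    (by
      intro ω hω F
      rw [← Finset.sum_div, div_le_one (by positivity)]
      rw [← Finset.sum_filter]
      refine le_trans (Finset.sum_le_sum_of_subset_of_nonneg (t := range N₀) ?_
        fun _ _ _ => Real.sqrt_nonneg _) (sum_dist (T0 ω) (h0 ω hω))
      intro x hx
      exact Finset.mem_range.mpr (Finset.mem_filter.mp hx).2)
  have h3 : Ex Q (fun ω => -Real.log ((if T1 ω < N₀ then
      Real.sqrt ((N₀ : ℝ) / (|(T0 ω : ℝ) - T1 ω| + 1)) else 0) / (4 * N₀))) ≤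
      Ex Q (fun ω => (-(1 / 2)) * Real.log ((N₀ : ℝ) / (|(T0 ω : ℝ) - T1 ω| + 1)) +
        (Real.log 4 + Real.log N₀)) := by
    refine Ex_mono hQ.nonneg fun ω hω => ?_
    have h4 : 0 < (N₀ : ℝ) / (|(T0 ω : ℝ) - T1 ω| + 1) := by positivity
    rw [if_pos (h1 ω hω), Real.log_div (Real.sqrt_pos.mpr h4).ne' (by positivity),
      Real.log_sqrt h4.le, Real.log_mul (by norm_num) hN.ne']
    linarith
  rw [Ex_add, Ex_const hQ.sum_one, Ex_smul] at h3
  linarith

/-! ### The coefficients from the values -/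

theorem one_le_pr {ι : Type} (s : Finset ι) {f : ι → ℝ} (h : ∀ i ∈ s, 1 ≤ f i) :
    1 ≤ ∏ i ∈ s, f i :=
  Finset.prod_induction f (fun x => 1 ≤ x) (fun _ _ ha hb => one_le_mul_of_one_le_of_one_le ha hb)
    le_rfl h

/-- The inverse distances of the times. -/
noncomputable def gp {K : ℕ} (N₀ : ℕ) (t : Fin (K + 1) → ℕ) : ℝ :=
  ∏ i, ∏ j ∈ univ.erase i, (N₀ : ℝ) / (|(t i : ℝ) - t j| + 1)

section gp

variable {K N₀ : ℕ} {t : Fin (K + 1) → ℕ}

theorem one_fac (ht : ∀ i, t i < N₀) (i j : Fin (K + 1)) :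
    1 ≤ (N₀ : ℝ) / (|(t i : ℝ) - t j| + 1) := by
  rw [one_le_div (by positivity)]
  have h1 : (t i : ℝ) + 1 ≤ N₀ := by exact_mod_cast ht i
  have h2 : (t j : ℝ) + 1 ≤ N₀ := by exact_mod_cast ht j
  have h3 : (0 : ℝ) ≤ t i := Nat.cast_nonneg _
  have h4 : (0 : ℝ) ≤ t j := Nat.cast_nonneg _
  have h5 : |(t i : ℝ) - t j| ≤ N₀ - 1 := by
    rw [abs_le]
    constructor <;> linarith
  linarith

theorem one_gp (ht : ∀ i, t i < N₀) : 1 ≤ gp N₀ t := by
  unfold gp
  have h1 : ∀ i : Fin (K + 1), 1 ≤ ∏ j ∈ univ.erase i, (N₀ : ℝ) / (|(t i : ℝ) - t j| + 1) :=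
    fun i => one_le_pr _ fun j _ => one_fac ht i j
  exact one_le_pr _ fun i _ => h1 i

theorem fac_le (ht : ∀ i, t i < N₀) {i j : Fin (K + 1)} (hij : i ≠ j) :
    (N₀ : ℝ) / (|(t i : ℝ) - t j| + 1) ≤ gp N₀ t := by
  unfold gp
  have h0 : ∀ i : Fin (K + 1), 1 ≤ ∏ j ∈ univ.erase i, (N₀ : ℝ) / (|(t i : ℝ) - t j| + 1) :=
    fun i => one_le_pr _ fun j _ => one_fac ht i j
  have h1 : (N₀ : ℝ) / (|(t i : ℝ) - t j| + 1) ≤
      ∏ j ∈ univ.erase i, (N₀ : ℝ) / (|(t i : ℝ) - t j| + 1) := by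
    rw [← Finset.mul_prod_erase (univ.erase i) _ (Finset.mem_erase.mpr ⟨hij.symm, mem_univ j⟩)]
    refine le_mul_of_one_le_right (zero_le_one.trans (one_fac ht i j)) ?_
    exact one_le_pr _ fun l _ => one_fac ht i l
  refine h1.trans ?_
  rw [← Finset.mul_prod_erase univ _ (mem_univ i)]
  refine le_mul_of_one_le_right (zero_le_one.trans (h0 i)) ?_
  exact one_le_pr _ fun l _ => h0 l

theorem log_gp (hN : 0 < N₀) : Real.log (gp N₀ t) =
    ∑ i, ∑ j ∈ univ.erase i, Real.log ((N₀ : ℝ) / (|(t i : ℝ) - t j| + 1)) := by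
  have hN' : (0 : ℝ) < N₀ := by exact_mod_cast hN
  unfold gp
  have h1 : ∀ i j : Fin (K + 1), (N₀ : ℝ) / (|(t i : ℝ) - t j| + 1) ≠ 0 := fun i j => by positivity
  rw [Real.log_prod fun i _ => Finset.prod_ne_zero_iff.mpr fun j _ => h1 i j]
  refine Finset.sum_congr rfl fun i _ => ?_
  rw [Real.log_prod fun j _ => h1 i j]

open Polynomial in
/-- **The values at the times determine the coefficients.** -/
theorem coef_near {A B : ℕ} (hKB : K ≤ B) (hAB : A ≤ B) (hB : 1 ≤ B) (ht : ∀ i, t i < N₀)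
    {P P' : ℝ[X]} (hP : P.natDegree ≤ K) (hP' : P'.natDegree ≤ K)
    (hA : ∀ j, |P.coeff j| ≤ (N₀ : ℝ) ^ A) (hA' : ∀ j, |P'.coeff j| ≤ (N₀ : ℝ) ^ A)
    (hv : ∀ i, |P.eval ((t i : ℝ) / N₀) - P'.eval ((t i : ℝ) / N₀)| ≤ 1) (j : ℕ) :
    |P.coeff j - P'.coeff j| ≤ (10 * gp N₀ t) ^ B := by
  classical
  have hN : 0 < N₀ := Nat.zero_lt_of_lt (ht 0)
  have hN' : (0 : ℝ) < N₀ := by exact_mod_cast hN
  have hg := one_gp ht
  have hg1 : 1 ≤ 10 * gp N₀ t := by linarith
  by_cases hinj : Function.Injective t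
  · obtain ⟨s, hs⟩ : ∃ s : Finset ℝ, s = univ.image (fun i => (t i : ℝ) / N₀) := ⟨_, rfl⟩
    have hinj' : Function.Injective (fun i => (t i : ℝ) / N₀) := by
      intro a b hab
      apply hinj
      have h1 : (t a : ℝ) = t b := by
        field_simp at hab
        exact hab
      exact_mod_cast h1
    have h1 := Pool.D2P.poly_pts (R := 1) (r := 1 / (2 * gp N₀ t)) zero_le_one (by positivity) (by
      rw [div_le_one (by positivity)]
      linarith) K (P - P') 1 s ((Polynomial.natDegree_sub_le _ _).trans (max_le hP hP'))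
      (by
        rw [hs, Finset.card_image_of_injective _ hinj', Finset.card_univ, Fintype.card_fin]
        exact Nat.lt_succ_self K)
      (by
        intro x hx
        rw [hs] at hx
        obtain ⟨i, _, rfl⟩ := Finset.mem_image.mp hx
        have h2 : (t i : ℝ) ≤ N₀ := by exact_mod_cast (ht i).le
        rw [abs_of_nonneg (by positivity), div_le_one hN']
        exact h2)
      (by
        intro x hx y hy hxy
        rw [hs] at hx hy
        obtain ⟨i, _, rfl⟩ := Finset.mem_image.mp hx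
        obtain ⟨k, _, rfl⟩ := Finset.mem_image.mp hy
        have hik : i ≠ k := by
          rintro rfl
          exact hxy rfl
        have h2 := fac_le ht hik
        have h3 : (1 : ℝ) ≤ |(t i : ℝ) - t k| := by
          have h4 : t i ≠ t k := fun h => hik (hinj h)
          rcases lt_or_gt_of_ne h4 with h5 | h5
          · have h6 : (t i : ℝ) + 1 ≤ t k := by exact_mod_cast h5
            rw [abs_sub_comm]
            exact (le_trans (by linarith) (le_abs_self _))
          · have h6 : (t k : ℝ) + 1 ≤ t i := by exact_mod_cast h5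
            exact (le_trans (by linarith) (le_abs_self _))
        rw [div_le_iff₀ (by positivity)] at h2
        rw [← sub_div, abs_div, abs_of_pos hN', div_le_div_iff₀ (by positivity) hN']
        have h7 : gp N₀ t * (|(t i : ℝ) - t k| + 1) ≤ gp N₀ t * (2 * |(t i : ℝ) - t k|) :=
          mul_le_mul_of_nonneg_left (by linarith) (by linarith)
        linarith)
      (by
        intro x hx
        rw [hs] at hx
        obtain ⟨i, _, rfl⟩ := Finset.mem_image.mp hx
        rw [Polynomial.eval_sub]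
        exact hv i) j
    rw [Polynomial.coeff_sub, mul_one] at h1
    refine h1.trans ?_
    have h2 : (3 + 2 * (1 : ℝ)) / (1 / (2 * gp N₀ t)) = 10 * gp N₀ t := by
      field_simp
      norm_num
    rw [h2]
    exact pow_le_pow_right₀ hg1 hKB
  · have h1 : ∃ i k, i ≠ k ∧ t i = t k := by
      by_contra hcon
      push Not at hcon
      exact hinj fun a b hab => by
        by_contra h
        exact hcon a b h hab
    obtain ⟨i, k, hik, hik'⟩ := h1
    have h2 := fac_le ht hik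
    rw [hik', sub_self, abs_zero, zero_add, div_one] at h2
    have h3 : (N₀ : ℝ) ^ A ≤ gp N₀ t ^ B :=
      (pow_le_pow_left₀ hN'.le h2 A).trans (pow_le_pow_right₀ hg hAB)
    have h4 := abs_sub (P.coeff j) (P'.coeff j)
    have h5 : 2 * gp N₀ t ^ B ≤ (10 * gp N₀ t) ^ B := by
      rw [mul_pow]
      refine mul_le_mul_of_nonneg_right ?_ (by positivity)
      calc (2 : ℝ) ≤ 10 ^ 1 := by norm_num
        _ ≤ 10 ^ B := pow_le_pow_right₀ (by norm_num) hB
    linarith [hA j, hA' j]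

end gp

/-! ### Nodes -/

section nodes

open Polynomial

/-- The coefficients are few bits given the values at the times of a tuple. -/
theorem CH_coef {V : Type} [Fintype V] {Q : V → ℝ} (hQ : IsLaw Q) {K A B N₀ : ℕ} (hKB : K ≤ B)
    (hAB : A ≤ B) (hB : 1 ≤ B) (t : V → Fin (K + 1) → ℕ)
    (ht : ∀ v, 0 < Q v → ∀ i, t v i < N₀) (P : V → ℝ[X]) (hP : ∀ v, (P v).natDegree ≤ K)
    (hA : ∀ v, 0 < Q v → ∀ j, |(P v).coeff j| ≤ (N₀ : ℝ) ^ A) :
    CH Q (fun v (j : Fin (K + 1)) => ⌊(P v).coeff j⌋)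
      (fun v => ((fun i => ⌊(P v).eval ((t v i : ℝ) / N₀)⌋), t v)) ≤
      Ex Q (fun v => (K + 1) * (Real.log 7 + B * (Real.log 10 + Real.log (gp N₀ (t v))))) := by
  classical
  have h0 := hQ.nonneg
  refine (CH_le_card h0 hQ.sum_one _ _ (fun z => (univ.filter fun v => 0 < Q v ∧
    ((fun i => ⌊(P v).eval ((t v i : ℝ) / N₀)⌋), t v) = z).image
      (fun v (j : Fin (K + 1)) => ⌊(P v).coeff j⌋)) ?_).trans ?_
  · intro v hv
    exact Finset.mem_image.mpr ⟨v, Finset.mem_filter.mpr ⟨mem_univ _, hv, rfl⟩, rfl⟩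
  · refine Ex_mono h0 fun v hv => ?_
    have hg := one_gp (ht v hv)
    obtain ⟨D, hD⟩ : ∃ D : ℕ, D = ⌈(10 * gp N₀ (t v)) ^ B⌉₊ + 1 := ⟨_, rfl⟩
    have h10 : 1 ≤ (10 * gp N₀ (t v)) ^ B := one_le_pow₀ (by linarith)
    have h1 := card_diam (D := D) ((univ.filter fun v' => 0 < Q v' ∧
      ((fun i => ⌊(P v').eval ((t v' i : ℝ) / N₀)⌋), t v') =
        ((fun i => ⌊(P v).eval ((t v i : ℝ) / N₀)⌋), t v)).image
      (fun v (j : Fin (K + 1)) => ⌊(P v).coeff j⌋)) (by
        intro x hx y hy j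
        obtain ⟨a, ha, rfl⟩ := Finset.mem_image.mp hx
        obtain ⟨b, hb, rfl⟩ := Finset.mem_image.mp hy
        obtain ⟨-, ha0, ha1⟩ := Finset.mem_filter.mp ha
        obtain ⟨-, hb0, hb1⟩ := Finset.mem_filter.mp hb
        have ea := Prod.ext_iff.mp ha1
        have eb := Prod.ext_iff.mp hb1
        simp only at ea eb
        have h2 := coef_near hKB hAB hB (ht v hv) (hP a) (hP b) (hA a ha0) (hA b hb0) (fun i => by
          have e1 := congrFun ea.1 i
          have e2 := congrFun eb.1 i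
          rw [ea.2] at e1
          rw [eb.2] at e2
          have e3 := Int.abs_sub_lt_one_of_floor_eq_floor (e1.trans e2.symm)
          exact e3.le) j
        have h3 : |((⌊(P a).coeff j⌋ : ℝ)) - ⌊(P b).coeff j⌋| ≤ (10 * gp N₀ (t v)) ^ B + 1 := by
          have f1 := Int.floor_le ((P a).coeff j)
          have f2 := Int.lt_floor_add_one ((P a).coeff j)
          have f3 := Int.floor_le ((P b).coeff j)
          have f4 := Int.lt_floor_add_one ((P b).coeff j)
          have f5 := abs_le.mp h2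
          rw [abs_le]
          constructor <;> linarith [f5.1, f5.2]
        have h4 : ((|⌊(P a).coeff j⌋ - ⌊(P b).coeff j⌋| : ℤ) : ℝ) ≤ ((D : ℤ) : ℝ) := by
          push_cast
          rw [hD]
          push_cast
          exact h3.trans (by linarith [Nat.le_ceil ((10 * gp N₀ (t v)) ^ B)])
        exact_mod_cast h4)
    have h2 : (1 : ℝ) ≤ (((univ.filter fun v' => 0 < Q v' ∧
      ((fun i => ⌊(P v').eval ((t v' i : ℝ) / N₀)⌋), t v') =
        ((fun i => ⌊(P v).eval ((t v i : ℝ) / N₀)⌋), t v)).image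
      (fun v (j : Fin (K + 1)) => ⌊(P v).coeff j⌋)).card : ℝ) := by
      have h3 : 0 < ((univ.filter fun v' => 0 < Q v' ∧
        ((fun i => ⌊(P v').eval ((t v' i : ℝ) / N₀)⌋), t v') =
          ((fun i => ⌊(P v).eval ((t v i : ℝ) / N₀)⌋), t v)).image
        (fun v (j : Fin (K + 1)) => ⌊(P v).coeff j⌋)).card :=
        Finset.card_pos.mpr ⟨_, Finset.mem_image.mpr
          ⟨v, Finset.mem_filter.mpr ⟨mem_univ _, hv, rfl⟩, rfl⟩⟩
      exact_mod_cast h3
    have h3 : (((univ.filter fun v' => 0 < Q v' ∧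
      ((fun i => ⌊(P v').eval ((t v' i : ℝ) / N₀)⌋), t v') =
        ((fun i => ⌊(P v).eval ((t v i : ℝ) / N₀)⌋), t v)).image
      (fun v (j : Fin (K + 1)) => ⌊(P v).coeff j⌋)).card : ℝ) ≤
        (7 * (10 * gp N₀ (t v)) ^ B) ^ (K + 1) := by
      refine le_trans (b := ((2 * (D : ℝ) + 1) ^ (K + 1))) (by exact_mod_cast h1) ?_
      refine pow_le_pow_left₀ (by positivity) ?_ _
      rw [hD]
      push_cast
      have h4 := (Nat.ceil_lt_add_one (a := (10 * gp N₀ (t v)) ^ B) (by positivity)).le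
      linarith
    refine (Real.log_le_log (by linarith) h3).trans (le_of_eq ?_)
    rw [Real.log_pow, Real.log_mul (by norm_num) (by positivity), Real.log_pow,
      Real.log_mul (by norm_num) (by positivity)]
    push_cast
    ring

/-- **Nodes.** A polynomial of the line whose value at the time is few bits given a function `c` of
the line and the time is few bits given `c`. -/
theorem nodes (K A : ℕ) : ∃ C : ℝ, 1 ≤ C ∧ ∀ {Ω Λ Γ : Type} [Fintype Ω] {p : Ω → ℝ}
    (_ : IsLaw p) {N₀ : ℕ} (_ : 0 < N₀) (L : Ω → Λ) (T : Ω → ℕ) (_ : ∀ ω, 0 < p ω → T ω < N₀)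
    (c : Λ → Γ) (R : Λ → ℝ[X]) (_ : ∀ l, (R l).natDegree ≤ K)
    (_ : ∀ ω, 0 < p ω → ∀ j, |(R (L ω)).coeff j| ≤ (N₀ : ℝ) ^ A) {d e : ℝ}
    (_ : CH p (fun ω => ⌊(R (L ω)).eval ((T ω : ℝ) / N₀)⌋) (fun ω => (c (L ω), T ω)) ≤ d)
    (_ : Real.log N₀ - e ≤ CH p T L),
    CH p (fun ω (j : Fin (K + 1)) => ⌊(R (L ω)).coeff j⌋) (fun ω => c (L ω)) ≤
      C * (d + e + 1) := by
  classical
  obtain ⟨B, hB⟩ : ∃ B : ℕ, B = K + A + 1 := ⟨_, rfl⟩
  obtain ⟨C, hC⟩ : ∃ C : ℝ, C = (K + 1) * (1 + (Real.log 7 + B * (Real.log 10 +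
    (K + 1) * (K + 1) * (2 + 2 * Real.log 4)))) := ⟨_, rfl⟩
  have l7 : 0 ≤ Real.log 7 := Real.log_nonneg (by norm_num)
  have l10 : 0 ≤ Real.log 10 := Real.log_nonneg (by norm_num)
  have l4 : 0 ≤ Real.log 4 := Real.log_nonneg (by norm_num)
  have hK0 : (0 : ℝ) ≤ K := Nat.cast_nonneg _
  have hB0 : (0 : ℝ) ≤ B := Nat.cast_nonneg _
  refine ⟨C, ?_, ?_⟩
  · rw [hC]
    have h1 : 0 ≤ Real.log 7 + B * (Real.log 10 + (K + 1) * (K + 1) * (2 + 2 * Real.log 4)) := by
      positivity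
    nlinarith
  intro Ω Λ Γ _ p hp N₀ hN L T hT c R hR hM d e hd he
  have hN' : (0 : ℝ) < N₀ := by exact_mod_cast hN
  have h0 := hp.nonneg
  obtain ⟨Q, hQ⟩ : ∃ Q : (Fin (K + 1) → Ω) → ℝ, Q = tup p L K := ⟨_, rfl⟩
  have hQl : IsLaw Q := by
    rw [hQ]
    exact tup_isLaw hp L K
  have hQ0 := hQl.nonneg
  have hmg : ∀ j, Marg Q p (fun v => v j) := fun j => by
    rw [hQ]
    exact tup_marg h0 L K j
  have hpos : ∀ v, 0 < Q v → (∀ j, 0 < p (v j)) ∧ ∀ j, L (v j) = L (v 0) := fun v hv => by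
    rw [hQ] at hv
    exact (tup_pos_iff h0 L K v).mp hv
  -- the deficit
  have hTN : ∀ {W : Type} (Z : Ω → W), CH p T Z ≤ Real.log N₀ := by
    intro W Z
    refine (CH_le_card h0 hp.sum_one T Z (fun _ => range N₀) fun ω hω =>
      Finset.mem_range.mpr (hT ω hω)).trans (le_of_eq ?_)
    rw [Finset.card_range, Ex_const hp.sum_one]
  have he0 : 0 ≤ e := by linarith [hTN L]
  have hd0 : 0 ≤ d := (CH_nonneg h0 _ _).trans hd
  -- the dependence of the times on the line
  have hmi : MI Q (fun v => L (v 0)) (fun v j => T (v j)) (fun _ => ()) ≤ (K + 1) * e := by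
    have h1 := tup_mi hp L T K
    have h2 : MI p L T (fun _ => ()) ≤ e := by
      rw [Pool.OC.mi_comm L T _ h0, Pool.CLU.MI_eq h0]
      have h3 : CH p T L ≤ CH p T (fun ω => (L ω, ())) :=
        CH_mono_cond h0 fun ω ω' _ _ h => by rw [h]
      linarith [hTN (fun _ : Ω => ())]
    rw [← hQ] at h1
    refine h1.trans ?_
    exact mul_le_mul_of_nonneg_left h2 (by positivity)
  -- the coefficients
  obtain ⟨X, hX⟩ : ∃ X : Ω → Fin (K + 1) → ℤ, X = fun ω (j : Fin (K + 1)) => ⌊(R (L ω)).coeff j⌋ := ⟨_, rfl⟩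
  rw [← hX]
  have h1 : CH p X (fun ω => c (L ω)) = CH Q (fun v => X (v 0)) (fun v => c (L (v 0))) :=
    ((hmg 0).CH X (fun ω => c (L ω))).symm
  have h2 : CH Q (fun v => X (v 0)) (fun v => c (L (v 0))) ≤
      CH Q (fun v => X (v 0)) (fun v => ((fun j => T (v j)), c (L (v 0)))) + (K + 1) * e := by
    have h3 := Pool.OC.mi_shift hQ0 (fun v j => T (v j)) (fun v => L (v 0)) (fun v => X (v 0))
      (fun _ => ()) (fun v => c (L (v 0))) (fun v v' _ _ h => by
        have h4 : L (v 0) = L (v' 0) := (Prod.ext_iff.mp h).1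
        show (X (v 0), c (L (v 0))) = (X (v' 0), c (L (v' 0)))
        rw [hX]
        simp only [h4]) (fun _ _ _ _ _ => rfl)
    rw [Pool.OC.mi_comm _ (fun v => X (v 0)) _ hQ0, Pool.CLU.MI_eq hQ0] at h3
    have h5 : MI Q (fun v j => T (v j)) (fun v => L (v 0)) (fun _ => ()) =
        MI Q (fun v => L (v 0)) (fun v j => T (v j)) (fun _ => ()) :=
      Pool.OC.mi_comm _ _ _ hQ0
    linarith
  -- the values
  obtain ⟨Y, hY⟩ : ∃ Y : Ω → ℤ, Y = fun ω => ⌊(R (L ω)).eval ((T ω : ℝ) / N₀)⌋ := ⟨_, rfl⟩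
  rw [← hY] at hd
  have h3 : CH Q (fun v => X (v 0)) (fun v => ((fun j => T (v j)), c (L (v 0)))) ≤
      CH Q (fun v j => Y (v j)) (fun v => ((fun j => T (v j)), c (L (v 0)))) +
      CH Q (fun v => X (v 0)) (fun v => ((fun j => Y (v j)), (fun j => T (v j)))) := by
    refine (CH_le_add hQ0 _ (fun v j => Y (v j)) _).trans ?_
    refine add_le_add le_rfl (CH_mono_cond hQ0 fun v v' _ _ h => ?_)
    simp only [Prod.mk.injEq] at h ⊢
    exact ⟨h.1, h.2.1⟩
  have h4 : CH Q (fun v j => Y (v j)) (fun v => ((fun j => T (v j)), c (L (v 0)))) ≤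
      (K + 1) * d := by
    refine (CH_pis hQ0 _ _).trans ?_
    have h5 : ∀ j ∈ (univ : Finset (Fin (K + 1))),
        CH Q (fun v => Y (v j)) (fun v => ((fun j => T (v j)), c (L (v 0)))) ≤ d := by
      intro j _
      refine le_trans (CH_mono_cond (W := fun v => (c (L (v j)), T (v j))) hQ0
        fun v v' hv hv' h => ?_) (((hmg j).CH Y (fun ω => (c (L ω), T ω))).le.trans hd)
      simp only [Prod.mk.injEq] at h ⊢
      refine ⟨?_, congrFun h.1 j⟩
      rw [(hpos v hv).2 j, (hpos v' hv').2 j]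
      exact h.2
    refine (Finset.sum_le_sum h5).trans (le_of_eq ?_)
    rw [Finset.sum_const, Finset.card_univ, Fintype.card_fin]
    simp
  have h5 : CH Q (fun v => X (v 0)) (fun v => ((fun j => Y (v j)), (fun j => T (v j)))) ≤
      Ex Q (fun v => (K + 1) * (Real.log 7 + B * (Real.log 10 +
        Real.log (gp N₀ (fun j => T (v j)))))) := by
    have h6 := CH_coef hQl (K := K) (A := A) (B := B) (by omega) (by omega) (by omega)
      (fun v j => T (v j)) (fun v hv i => hT _ ((hpos v hv).1 i)) (fun v => R (L (v 0)))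
      (fun v => hR _) (fun v hv j => hM _ ((hpos v hv).1 0) j)
    rw [hX]
    refine (CH_mono_cond hQ0 fun v v' hv hv' h => ?_).trans h6
    simp only [Prod.mk.injEq] at h ⊢
    refine ⟨?_, h.2⟩
    rw [hY] at h
    funext i
    have h7 := congrFun h.1 i
    simp only [(hpos v hv).2 i, (hpos v' hv').2 i] at h7
    exact h7
  -- the distances
  have h6 : Ex Q (fun v => Real.log (gp N₀ (fun j => T (v j)))) ≤
      (K + 1) * (K + 1) * (2 * e + 2 * Real.log 4) := by
    have h7 : Ex Q (fun v => Real.log (gp N₀ (fun j => T (v j)))) =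
        ∑ i, ∑ j ∈ univ.erase i, Ex Q (fun v =>
          Real.log ((N₀ : ℝ) / (|(T (v i) : ℝ) - T (v j)| + 1))) := by
      simp only [log_gp hN]
      unfold Ex
      rw [Finset.sum_congr rfl fun v _ => Finset.mul_sum _ _ _, Finset.sum_comm]
      refine Finset.sum_congr rfl fun i _ => ?_
      rw [Finset.sum_congr rfl fun v _ => Finset.mul_sum _ _ _, Finset.sum_comm]
    rw [h7]
    have h8 : ∀ i j : Fin (K + 1), i ≠ j → Ex Q (fun v =>
        Real.log ((N₀ : ℝ) / (|(T (v i) : ℝ) - T (v j)| + 1))) ≤ 2 * e + 2 * Real.log 4 := by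
      intro i j hij
      refine far_log hQl (fun v => T (v i)) (fun v => T (v j)) (fun v hv => hT _ ((hpos v hv).1 i))
        (fun v hv => hT _ ((hpos v hv).1 j)) (he.trans ?_)
      have h9 : Marg Q (glue p p L L) (fun v => (v i, v j)) := by
        rw [hQ]
        exact tup_two h0 L i j hij
      have h10 := h9.CH (fun w => T w.2) (fun w => T w.1)
      have h11 : CH Q (fun v => T (v j)) (fun v => T (v i)) =
          CH (glue p p L L) (fun w => T w.2) (fun w => T w.1) := h10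
      rw [h11]
      have h12 := CH_glue_snd h0 h0 (fun _ => rfl) T (Y := L) (Z₁ := L) (Z₂ := L)
        (fun w : Ω => w) (fun _ _ _ _ h => h)
      rw [← h12]
      exact CH_mono_cond (glue_nonneg h0 h0) fun w w' _ _ h => by
        have := (Prod.ext_iff.mp h).2
        simp only at this
        rw [this]
    have h13 : (0 : ℝ) ≤ 2 * e + 2 * Real.log 4 := by positivity
    calc _ ≤ ∑ i : Fin (K + 1), ∑ _j ∈ univ.erase i, (2 * e + 2 * Real.log 4) :=
          Finset.sum_le_sum fun i _ => Finset.sum_le_sum fun j hj =>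
            h8 i j (Finset.ne_of_mem_erase hj).symm
      _ ≤ ∑ _i : Fin (K + 1), ∑ _j : Fin (K + 1), (2 * e + 2 * Real.log 4) :=
          Finset.sum_le_sum fun i _ => Finset.sum_le_sum_of_subset_of_nonneg
            (Finset.erase_subset _ _) fun _ _ _ => h13
      _ = _ := by
          simp only [Finset.sum_const, Finset.card_univ, Fintype.card_fin, nsmul_eq_mul]
          push_cast
          ring
  have h7 : Ex Q (fun v => (K + 1) * (Real.log 7 + B * (Real.log 10 +
      Real.log (gp N₀ (fun j => T (v j)))))) = (K + 1) * (Real.log 7 + B * (Real.log 10 +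
        Ex Q (fun v => Real.log (gp N₀ (fun j => T (v j)))))) := by
    rw [Ex_smul, Ex_add, Ex_const hQl.sum_one, Ex_smul, Ex_add, Ex_const hQl.sum_one]
  rw [h7] at h5
  have h8 : (K + 1) * (Real.log 7 + B * (Real.log 10 +
      Ex Q (fun v => Real.log (gp N₀ (fun j => T (v j)))))) ≤ (K + 1) * (Real.log 7 +
        B * (Real.log 10 + (K + 1) * (K + 1) * (2 * e + 2 * Real.log 4))) := by
    gcongr
  have h9 : (K + 1) * (Real.log 7 + B * (Real.log 10 + (K + 1) * (K + 1) *
      (2 * e + 2 * Real.log 4))) + (K + 1) * d + (K + 1) * e ≤ C * (d + e + 1) := by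
    rw [hC]
    have g1 : 0 ≤ (K + 1) * (K + 1) * (2 * Real.log 4) := by positivity
    have g2 : 0 ≤ B * ((K + 1) * (K + 1) * (2 : ℝ)) := by positivity
    have g3 : 0 ≤ Real.log 7 + B * (Real.log 10 + (K + 1) * (K + 1) * (2 * Real.log 4)) := by
      positivity
    have g4 := mul_nonneg g3 (add_nonneg hd0 he0)
    have g5 := mul_nonneg g2 (add_nonneg hd0 zero_le_one)
    have g6 : Real.log 7 + B * (Real.log 10 + (K + 1) * (K + 1) *
        (2 * e + 2 * Real.log 4)) + d + e ≤ (1 + (Real.log 7 + B * (Real.log 10 +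
          (K + 1) * (K + 1) * (2 + 2 * Real.log 4)))) * (d + e + 1) := by
      linarith only [g4, g5]
    have g7 := mul_le_mul_of_nonneg_left g6 (show (0 : ℝ) ≤ K + 1 by positivity)
    linarith only [g7]
  rw [h1]
  linarith only [h2, h3, h4, h5, h8, h9]

end nodes

end Pool.D2N
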